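import Pool.Agent.Helper26_SCT.Place

/-!
# The local step: a point over an odd degree extension
-/

set_option autoImplicit false
set_option linter.unusedSectionVars false

namespace Pool.Agent.SCT.H26

open Polynomial Module

/-- scaling the coordinates in a form -/
theorem aeval_scale {K B σ : Type} [CommRing K] [CommRing B] [Algebra K B]
    {g : MvPolynomial σ K} {d : ℕ} (hg : g.IsHomogeneous d) (μ : B) (a : σ → B) :
    MvPolynomial.aeval (fun i => μ * a i) g = μ ^ d * MvPolynomial.aeval a g := by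
  have h1 : MvPolynomial.aeval (fun i => μ * a i) g = ∑ m ∈ g.support,
      MvPolynomial.aeval (fun i => μ * a i) (MvPolynomial.monomial m (g.coeff m)) := by
    rw [← map_sum, ← g.as_sum]
  have h2 : MvPolynomial.aeval a g = ∑ m ∈ g.support,
      MvPolynomial.aeval a (MvPolynomial.monomial m (g.coeff m)) := by
    rw [← map_sum, ← g.as_sum]
  rw [h1, h2, Finset.mul_sum]
  apply Finset.sum_congr rfl
  intro m hm
  rw [MvPolynomial.aeval_monomial, MvPolynomial.aeval_monomial, Finsupp.prod, Finsupp.prod]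
  have h3 : ∏ i ∈ m.support, (μ * a i) ^ m i = μ ^ d * ∏ i ∈ m.support, a i ^ m i := by
    simp only [mul_pow]
    rw [Finset.prod_mul_distrib, Finset.prod_pow_eq_pow_sum]
    congr 2
    have h4 : m.degree = d := by
      rw [Finsupp.degree_eq_weight_one]
      exact hg (MvPolynomial.mem_support_iff.1 hm)
    exact h4
  rw [h3]
  ring

variable {L Q FF : Type} [Field L] [Field Q] [Algebra L[X] Q] [IsFractionRing L[X] Q]
  [Field FF] [Algebra Q FF] [FiniteDimensional Q FF] {σ : Type} [Fintype σ]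
  [Algebra L[X] FF] [IsScalarTower L[X] Q FF] [Algebra L FF] [IsScalarTower L L[X] FF]

/-- parity of the order of an element which differs by a square -/
theorem parity {q : L[X]} (hq : Irreducible q) {n u : L[X]} {m : ℕ} (hn : n ≠ 0) (hu : ¬ q ∣ u)
    (hm : Odd m) {w : Q} (h : algebraMap L[X] Q n = algebraMap L[X] Q (q ^ m * u) * w ^ 2) :
    ∃ (j : ℕ) (v : L[X]), n = q ^ j * v ∧ ¬ q ∣ v ∧ Odd j := by
  obtain ⟨x, y, hy, rfl⟩ := IsFractionRing.div_surjective (A := L[X]) w
  have hy0 : y ≠ 0 := nonZeroDivisors.ne_zero hy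
  have hyQ : algebraMap L[X] Q y ≠ 0 := by
    rw [Ne, IsFractionRing.to_map_eq_zero_iff]; exact hy0
  have h1 : n * y ^ 2 = q ^ m * u * x ^ 2 := by
    apply IsFractionRing.injective L[X] Q
    rw [map_mul, map_mul, h, div_pow, map_pow, map_pow]
    field_simp
  have hx0 : x ≠ 0 := by
    rintro rfl
    rw [zero_pow two_ne_zero, mul_zero] at h1
    exact (mul_ne_zero hn (pow_ne_zero _ hy0)) h1
  obtain ⟨j, v, hjv, hv⟩ := split_prime hq hn
  obtain ⟨α, y', hy', hy''⟩ := split_prime hq hy0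
  obtain ⟨β, x', hx', hx''⟩ := split_prime hq hx0
  refine ⟨j, v, hjv, hv, ?_⟩
  have h2 : q ^ (j + 2 * α) * (v * y' ^ 2) = q ^ (m + 2 * β) * (u * x' ^ 2) := by
    rw [hjv, hy', hx'] at h1
    linear_combination h1
  have hnd : ∀ a b : L[X], ¬ q ∣ a → ¬ q ∣ b → ¬ q ∣ a * b ^ 2 := by
    intro a b ha hb h
    rcases hq.prime.dvd_or_dvd h with h3 | h3
    · exact ha h3
    · exact hb (hq.prime.dvd_of_dvd_pow h3)
  have h3 := pow_unique hq (hnd _ _ hv hy'') (hnd _ _ hu hx'') h2
  obtain ⟨k, hk⟩ := hm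
  rcases Nat.even_or_odd j with hj | hj
  · obtain ⟨i, hi⟩ := hj
    omega
  · exact hj

/-- the local step -/
theorem place [Infinite L] {q : L[X]} (hq : Irreducible q) (hdeg : Odd q.natDegree) {a : σ → FF}
    (ha : a ≠ 0) {ψ : FF} (hψ : ψ ≠ 0) (e : ℕ)
    (hmem : ∀ (O : Subalgebra L[X] FF) (b : σ → O) (μ : FF), (∀ i, (b i : FF) = μ * a i) →
      ∃ φ : O, (φ : FF) = μ ^ (2 * e) * ψ) {m : ℕ} (hm : Odd m) {u : L[X]} (hu : ¬ q ∣ u) {w : Q}
    (hN : Algebra.norm Q ψ = algebraMap L[X] Q (q ^ m * u) * w ^ 2) :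
    ∃ (F : Type) (_ : Field F) (_ : Algebra L F), Odd (finrank L F) ∧ ∃ a' : σ → F, a' ≠ 0 ∧
      (∀ (g : MvPolynomial σ L) (d : ℕ), g.IsHomogeneous d → MvPolynomial.aeval a g = 0 →
        MvPolynomial.aeval a' g = 0) ∧
      ∀ g : MvPolynomial σ L, g.IsHomogeneous (2 * e) →
        ∀ τ : L[X], MvPolynomial.aeval a g = algebraMap L[X] FF τ * ψ →
          MvPolynomial.aeval a' g = 0 := by
  classical
  obtain ⟨O, r, β, b, y, s, μ, hμ, hs, hb, hsum, hnorm⟩ := exists_model (Q := Q) hq ha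
  obtain ⟨φ, hφ⟩ := hmem O b μ hb
  have hφ0 : φ ≠ 0 := by
    intro h
    rw [h] at hφ
    exact (mul_ne_zero (pow_ne_zero _ hμ) hψ) hφ.symm
  have hn0 : Algebra.norm L[X] φ ≠ 0 := by
    intro h
    have h1 := hnorm φ
    rw [h, map_zero, Algebra.norm_eq_zero_iff] at h1
    exact hφ0 (Subtype.ext h1)
  have hn1 : algebraMap L[X] Q (Algebra.norm L[X] φ) = algebraMap L[X] Q (q ^ m * u) *
      (w * Algebra.norm Q μ ^ e) ^ 2 := by
    rw [← hnorm, hφ, map_mul, map_pow, hN]
    ring
  obtain ⟨j, v, hj, hv, hjodd⟩ := parity hq hn0 hu hm hn1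
  have hodd := odd_dim (L := L) β hφ0 hq hdeg hjodd hv hj
  set I' : Ideal O := Ideal.span {φ} ⊔ Ideal.span {algebraMap L[X] O (q ^ j)} with hI'
  have hfin : Module.Finite L (O ⧸ I') := Module.finite_of_finrank_pos hodd.pos
  obtain ⟨n, hn, hnodd, hann⟩ := odd_max (L := L) (T := O) _ (O ⧸ I') rfl hodd
  have hle : ∀ x ∈ I', x ∈ n := by
    intro x hx
    apply hann
    intro w
    obtain ⟨w, rfl⟩ := Ideal.Quotient.mk_surjective w
    show Ideal.Quotient.mk I' (x * w) = 0
    rw [Ideal.Quotient.eq_zero_iff_mem]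
    exact Ideal.mul_mem_right _ _ hx
  have hφn : φ ∈ n := hle φ (Ideal.mem_sup_left (Ideal.mem_span_singleton_self _))
  have hqn : algebraMap L[X] O q ∈ n := by
    have h1 : algebraMap L[X] O (q ^ j) ∈ n :=
      hle _ (Ideal.mem_sup_right (Ideal.mem_span_singleton_self _))
    rw [map_pow] at h1
    exact hn.isPrime.mem_of_pow_mem _ h1
  have hsn : algebraMap L[X] O s ∉ n := by
    intro h
    obtain ⟨x, z, hxz⟩ := (hq.coprime_iff_not_dvd.2 hs)
    apply hn.ne_top
    rw [Ideal.eq_top_iff_one]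
    have h1 := congrArg (algebraMap L[X] O) hxz
    rw [map_add, map_mul, map_mul, map_one] at h1
    rw [← h1]
    exact add_mem (Ideal.mul_mem_left _ _ hqn) (Ideal.mul_mem_left _ _ h)
  let hfield : Field (O ⧸ n) := Ideal.Quotient.field n
  refine ⟨O ⧸ n, hfield, inferInstance, hnodd, fun i => Ideal.Quotient.mk n (b i), ?_, ?_, ?_⟩
  · intro h
    apply hsn
    rw [← Ideal.Quotient.eq_zero_iff_mem, ← hsum, map_sum]
    apply Finset.sum_eq_zero
    intro i _
    have h1 : Ideal.Quotient.mk n (b i) = 0 := congrFun h i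
    rw [map_mul, h1, mul_zero]
  · intro g d hg h0
    have h1 : MvPolynomial.aeval (fun i => Ideal.Quotient.mk n (b i)) g =
        Ideal.Quotient.mk n (MvPolynomial.aeval b g) := by
      have h2 := MvPolynomial.comp_aeval_apply (R := L) b (Ideal.Quotient.mkₐ L n) g
      exact h2.symm
    rw [h1]
    have h3 : MvPolynomial.aeval b g = 0 := by
      apply Subtype.ext
      have h4 := MvPolynomial.comp_aeval_apply (R := L) b (O.val.restrictScalars L) g
      have h5 : (MvPolynomial.aeval b g : O).1 = MvPolynomial.aeval (fun i => (b i : FF)) g := h4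
      rw [h5]
      have h6 : (fun i => (b i : FF)) = fun i => μ * a i := funext hb
      rw [h6, aeval_scale hg, h0, mul_zero]
      rfl
    rw [h3, map_zero]
  · intro g hg τ h0
    have h1 : MvPolynomial.aeval (fun i => Ideal.Quotient.mk n (b i)) g =
        Ideal.Quotient.mk n (MvPolynomial.aeval b g) := by
      have h2 := MvPolynomial.comp_aeval_apply (R := L) b (Ideal.Quotient.mkₐ L n) g
      exact h2.symm
    rw [h1, Ideal.Quotient.eq_zero_iff_mem]
    have h3 : MvPolynomial.aeval b g = algebraMap L[X] O τ * φ := by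
      apply Subtype.ext
      have h4 := MvPolynomial.comp_aeval_apply (R := L) b (O.val.restrictScalars L) g
      have h5 : (MvPolynomial.aeval b g : O).1 = MvPolynomial.aeval (fun i => (b i : FF)) g := h4
      rw [h5]
      have h6 : (fun i => (b i : FF)) = fun i => μ * a i := funext hb
      rw [h6, aeval_scale hg, h0]
      show μ ^ (2 * e) * (algebraMap L[X] FF τ * ψ) = algebraMap L[X] FF τ * (φ : FF)
      rw [hφ]
      ring
    rw [h3]
    exact Ideal.mul_mem_left _ _ hφn

end Pool.Agent.SCT.H26
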