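import Pool.Agent.SCT.StmtsA
import Pool.Agent.Helper26_SCT.Point

/-!
# SCT, row DES: the descent from a point over an odd degree extension of `L(t)`
-/

set_option autoImplicit false

namespace Pool.Agent.SCT.H26

open Polynomial Module

/-- a polynomial of odd degree has an irreducible factor of odd degree -/
theorem odd_factor {L : Type} [Field L] (h : L[X]) (hodd : Odd h.natDegree) :
    ∃ p, Irreducible p ∧ p ∣ h ∧ Odd p.natDegree := by
  induction h using WfDvdMonoid.induction_on_irreducible with
  | zero => simp at hodd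
  | unit u hu =>
    rw [Polynomial.natDegree_eq_zero_of_isUnit hu] at hodd
    simp at hodd
  | mul a i ha hi ih =>
    rw [Polynomial.natDegree_mul hi.ne_zero ha] at hodd
    rcases Nat.even_or_odd i.natDegree with h1 | h1
    · obtain ⟨p, hp, hpa, hpo⟩ := ih (by
        rcases Nat.even_or_odd a.natDegree with h2 | h2
        · exact absurd hodd (Nat.not_odd_iff_even.2 (h1.add h2))
        · exact h2)
      exact ⟨p, hp, hpa.mul_left _, hpo⟩
    · exact ⟨i, hi, dvd_mul_right _ _, h1⟩

/-- a polynomial of odd degree has an irreducible factor of odd degree and odd multiplicity -/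
theorem odd_prime {L : Type} [Field L] (d : ℕ) : ∀ r : L[X], r.natDegree = d → Odd d →
    ∃ (q : L[X]) (m : ℕ) (u : L[X]), Irreducible q ∧ Odd q.natDegree ∧ Odd m ∧ ¬ q ∣ u ∧
      r = q ^ m * u := by
  induction d using Nat.strong_induction_on with
  | _ d ih =>
    intro r hr hd
    have hr0 : r ≠ 0 := by
      rintro rfl
      rw [natDegree_zero] at hr
      rw [← hr] at hd
      simp at hd
    obtain ⟨q, hq, hqr, hqo⟩ := odd_factor r (hr ▸ hd)
    obtain ⟨m, u, hmu, hu⟩ := split_prime hq hr0
    rcases Nat.even_or_odd m with hm | hm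
    · have hu0 : u ≠ 0 := by rintro rfl; exact hu (dvd_zero _)
      have hm0 : m ≠ 0 := by
        rintro rfl
        rw [pow_zero, one_mul] at hmu
        exact hu (hmu ▸ hqr)
      have hdeg : d = m * q.natDegree + u.natDegree := by
        rw [← hr, hmu, natDegree_mul (pow_ne_zero _ hq.ne_zero) hu0, natDegree_pow]
      have hlt : u.natDegree < d := by
        rw [hdeg]
        have : 0 < m * q.natDegree := Nat.mul_pos (Nat.pos_of_ne_zero hm0) hqo.pos
        omega
      have huo : Odd u.natDegree := by
        rcases Nat.even_or_odd u.natDegree with h2 | h2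
        · rw [hdeg] at hd
          exact absurd hd (Nat.not_odd_iff_even.2 ((hm.mul_right _).add h2))
        · exact h2
      obtain ⟨q', m', u', hq', hqo', hmo', hu', hmu'⟩ := ih _ hlt u rfl huo
      refine ⟨q', m', q ^ m * u', hq', hqo', hmo', ?_, ?_⟩
      · intro h
        rcases hq'.prime.dvd_or_dvd h with h1 | h1
        · have h2 : q' ∣ q := hq'.prime.dvd_of_dvd_pow h1
          have h3 : Associated q' q := hq'.associated_of_dvd hq h2
          apply hu
          rw [hmu']
          exact h3.symm.dvd.trans ((dvd_pow_self q' hmo'.pos.ne').mul_right _)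
        · exact hu' h1
      · rw [hmu, hmu']; ring
    · exact ⟨q, m, u, hq, hqo, hm, hu, hmu⟩

/-- the polynomial `p(1/t)` -/
noncomputable def infHom (L : Type) [Field L] : L[X] →+* RatFunc L :=
  Polynomial.eval₂RingHom (algebraMap L (RatFunc L)) (RatFunc.X)⁻¹

theorem algebraMap_eq (L : Type) [Field L] (p : L[X]) :
    algebraMap L[X] (RatFunc L) p = eval₂ (algebraMap L (RatFunc L)) RatFunc.X p := by
  rw [← RatFunc.algebraMap_X, ← Polynomial.aeval_def, Polynomial.aeval_algebraMap_apply,
    Polynomial.aeval_X_left_apply]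

theorem inf_reverse {L : Type} [Field L] (p : L[X]) :
    algebraMap L[X] (RatFunc L) p = infHom L p.reverse * RatFunc.X ^ p.natDegree := by
  have : Invertible (RatFunc.X : RatFunc L) := invertibleOfNonzero RatFunc.X_ne_zero
  have h1 := Polynomial.eval₂_reverse_mul_pow (algebraMap L (RatFunc L)) (RatFunc.X) p
  rw [invOf_eq_inv] at h1
  rw [algebraMap_eq, ← h1]
  rfl

theorem inf_X (L : Type) [Field L] : infHom L X = (RatFunc.X)⁻¹ := by
  show eval₂ _ _ X = _
  rw [eval₂_X]

theorem inf_C {L : Type} [Field L] (c : L) : infHom L (C c) = algebraMap L (RatFunc L) c := by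
  show eval₂ _ _ (C c) = _
  rw [eval₂_C]

theorem inf_ne_zero {L : Type} [Field L] {p : L[X]} (hp : p ≠ 0) : infHom L p ≠ 0 := by
  intro h
  have hX : (RatFunc.X : RatFunc L) ≠ 0 := RatFunc.X_ne_zero
  have : Invertible ((RatFunc.X : RatFunc L)⁻¹) := invertibleOfNonzero (inv_ne_zero hX)
  have h1 := Polynomial.eval₂_reverse_mul_pow (algebraMap L (RatFunc L)) (RatFunc.X)⁻¹ p
  rw [invOf_eq_inv, inv_inv, ← algebraMap_eq] at h1
  have h2 : eval₂ (algebraMap L (RatFunc L)) (RatFunc.X)⁻¹ p = 0 := h
  rw [h2] at h1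
  rcases mul_eq_zero.1 h1 with h3 | h3
  · rw [map_eq_zero_iff _ (IsFractionRing.injective L[X] (RatFunc L)),
      Polynomial.reverse_eq_zero] at h3
    exact hp h3
  · exact (pow_ne_zero _ (inv_ne_zero hX)) h3

theorem exists_num {L : Type} [Field L] (z : RatFunc L) : ∃ p q : L[X], q ≠ 0 ∧
    z = algebraMap L[X] (RatFunc L) p / algebraMap L[X] (RatFunc L) q :=
  ⟨z.num, z.denom, z.denom_ne_zero, (RatFunc.num_div_denom z).symm⟩

/-- `RatFunc L` is also the field of fractions of `L[1/t]` -/
theorem inf_frac (L : Type) [Field L] :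
    @IsFractionRing L[X] _ (RatFunc L) _ (infHom L).toAlgebra := by
  let _ : Algebra L[X] (RatFunc L) := (infHom L).toAlgebra
  have hX : (RatFunc.X : RatFunc L) ≠ 0 := RatFunc.X_ne_zero
  have halg : ∀ p : L[X], algebraMap L[X] (RatFunc L) p = infHom L p := fun p => rfl
  have hinj : Function.Injective (infHom L) := by
    rw [injective_iff_map_eq_zero]
    intro p hp
    by_contra h
    exact inf_ne_zero h hp
  refine { map_units := ?_, surj := ?_, exists_of_eq := ?_ }
  · intro y
    rw [halg]
    exact isUnit_iff_ne_zero.2 (inf_ne_zero (nonZeroDivisors.ne_zero y.2))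
  · intro z
    obtain ⟨p, q, hq, rfl⟩ := exists_num z
    have hq' : q.reverse ≠ 0 := by rwa [Ne, Polynomial.reverse_eq_zero]
    refine ⟨(p.reverse * X ^ q.natDegree, ⟨q.reverse * X ^ p.natDegree,
      mem_nonZeroDivisors_of_ne_zero (mul_ne_zero hq' (pow_ne_zero _ X_ne_zero))⟩), ?_⟩
    rw [inf_reverse p, inf_reverse q]
    show _ * infHom L (q.reverse * X ^ p.natDegree) = infHom L (p.reverse * X ^ q.natDegree)
    rw [map_mul, map_mul, map_pow, map_pow, inf_X]
    have h1 := inf_ne_zero hq'
    have h2 : ∀ k : ℕ, (RatFunc.X : RatFunc L) ^ k * (RatFunc.X : RatFunc L)⁻¹ ^ k = 1 :=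
      fun k => by rw [← mul_pow, mul_inv_cancel₀ hX, one_pow]
    rw [div_mul_eq_mul_div, div_eq_iff (mul_ne_zero h1 (pow_ne_zero _ hX))]
    linear_combination infHom L p.reverse * infHom L q.reverse * h2 p.natDegree -
      infHom L p.reverse * infHom L q.reverse * h2 q.natDegree
  · intro x y h
    exact ⟨1, by rw [hinj h]⟩

theorem des : DesStmt := by
  classical
  intro L _ _ σ _ G f0 f1 hG hf0 hf1 hpt
  have : Fintype σ := Fintype.ofFinite σ
  obtain ⟨F, _, _, hodd, a, ha, hvan⟩ := hpt
  have hfd : FiniteDimensional (RatFunc L) F := Module.finite_of_finrank_pos hodd.pos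
  have hX : (RatFunc.X : RatFunc L) ≠ 0 := RatFunc.X_ne_zero
  let _ : Algebra L F := ((algebraMap (RatFunc L) F).comp (algebraMap L (RatFunc L))).toAlgebra
  have _ : IsScalarTower L (RatFunc L) F := IsScalarTower.of_algebraMap_eq fun _ => rfl
  -- the values of the forms
  have hGv : ∀ g ∈ G, MvPolynomial.aeval a g = 0 := by
    intro g hg
    have h1 := hvan _ (Or.inl ⟨g, hg, rfl⟩)
    rwa [MvPolynomial.aeval_map_algebraMap] at h1
  set v0 : F := MvPolynomial.aeval a f0 with hv0
  set v1 : F := MvPolynomial.aeval a f1 with hv1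
  set t : F := algebraMap (RatFunc L) F RatFunc.X with ht
  have ht0 : t ≠ 0 := by
    rw [ht, Ne, map_eq_zero]
    exact hX
  have hrel : v0 + t * v1 = 0 := by
    have h1 := hvan _ (Or.inr rfl)
    rwa [map_add, map_mul, MvPolynomial.aeval_map_algebraMap, MvPolynomial.aeval_map_algebraMap,
      MvPolynomial.aeval_C] at h1
  by_cases h10 : v1 = 0
  · -- the forms vanish: any rational place
    have h00 : v0 = 0 := by rw [h10, mul_zero, add_zero] at hrel; exact hrel
    let _ : Algebra L[X] F :=
      ((algebraMap (RatFunc L) F).comp (algebraMap L[X] (RatFunc L))).toAlgebra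
    have _ : IsScalarTower L[X] (RatFunc L) F := IsScalarTower.of_algebraMap_eq fun _ => rfl
    have _ : IsScalarTower L L[X] F := IsScalarTower.of_algebraMap_eq fun x => by
      exact congrArg (algebraMap (RatFunc L) F)
        (IsScalarTower.algebraMap_apply L L[X] (RatFunc L) x)
    have hpsi : algebraMap L[X] F X ≠ 0 := by
      show algebraMap (RatFunc L) F (algebraMap L[X] (RatFunc L) X) ≠ 0
      rw [RatFunc.algebraMap_X]
      exact ht0
    obtain ⟨F', i1, i2, h1, a', h2, h3, h4⟩ := place (Q := RatFunc L) (q := (X : L[X]))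
      irreducible_X (by rw [natDegree_X]; exact odd_one) ha (ψ := algebraMap L[X] F X) hpsi 0
      (fun O b μ _ => ⟨algebraMap L[X] O X, by rw [mul_zero, pow_zero, one_mul]; rfl⟩)
      (m := Module.finrank (RatFunc L) F) hodd (u := 1)
      (fun h => irreducible_X.not_isUnit (isUnit_of_dvd_one h)) (w := 1)
      (by
        show Algebra.norm (RatFunc L) (algebraMap (RatFunc L) F (algebraMap L[X] (RatFunc L) X)) = _
        rw [Algebra.norm_algebraMap, map_mul, map_pow, map_one]
        ring)
    refine ⟨F', i1, i2, h1, a', h2, ?_⟩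
    rintro g (hg | hg | hg)
    · obtain ⟨d, hd⟩ := hG g hg
      exact h3 g d hd (hGv g hg)
    · rw [hg]; exact h3 f0 2 hf0 h00
    · rw [hg]; exact h3 f1 2 hf1 h10
  · have hn1 : Algebra.norm (RatFunc L) v1 ≠ 0 := by
      rw [Ne, Algebra.norm_eq_zero_iff]; exact h10
    obtain ⟨p, q0, hq0, hpq⟩ := exists_num (Algebra.norm (RatFunc L) v1)
    obtain ⟨r, hr⟩ : ∃ r, r = p * q0 := ⟨_, rfl⟩
    have hq0' : algebraMap L[X] (RatFunc L) q0 ≠ 0 := by
      rw [Ne, IsFractionRing.to_map_eq_zero_iff]; exact hq0
    have hrw : Algebra.norm (RatFunc L) v1 =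
        algebraMap L[X] (RatFunc L) r * (algebraMap L[X] (RatFunc L) q0)⁻¹ ^ 2 := by
      rw [hpq, hr, map_mul]
      field_simp
    have hr0 : r ≠ 0 := by
      intro h
      rw [h, map_zero, zero_mul] at hrw
      exact hn1 hrw
    rcases Nat.even_or_odd r.natDegree with hre | hro
    · -- infinity
      have hRr := inf_reverse r
      obtain ⟨R, hR⟩ : ∃ R, R = algebraMap L[X] (RatFunc L) r := ⟨_, rfl⟩
      obtain ⟨E, hE⟩ : ∃ E, E = (algebraMap L[X] (RatFunc L) q0)⁻¹ := ⟨_, rfl⟩
      rw [← hR, ← hE] at hrw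
      rw [← hR] at hRr
      clear hR hE hpq hq0'
      let A1 : Algebra L[X] (RatFunc L) := (infHom L).toAlgebra
      have hfr : @IsFractionRing L[X] _ (RatFunc L) _ A1 := inf_frac L
      let A2 : Algebra L[X] F := ((algebraMap (RatFunc L) F).comp (infHom L)).toAlgebra
      have hst1 : @IsScalarTower L[X] (RatFunc L) F A1.toSMul _ A2.toSMul :=
        @IsScalarTower.of_algebraMap_eq L[X] (RatFunc L) F _ _ _ A1 _ A2 fun _ => rfl
      have hst2 : @IsScalarTower L L[X] F _ A2.toSMul _ :=
        @IsScalarTower.of_algebraMap_eq L L[X] F _ _ _ _ A2 _ fun x => by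
          show algebraMap (RatFunc L) F (algebraMap L (RatFunc L) x) =
            algebraMap (RatFunc L) F (infHom L (C x))
          rw [inf_C]
      have h00 : v0 ≠ 0 := by
        intro h
        rw [h, zero_add] at hrel
        rcases mul_eq_zero.1 hrel with h1 | h1
        · exact ht0 h1
        · exact h10 h1
      obtain ⟨k, hk⟩ : ∃ k, Module.finrank (RatFunc L) F + r.natDegree = 2 * k + 1 :=
        hodd.add_even hre
      have hv0v1 : v0 = algebraMap (RatFunc L) F (-RatFunc.X) * v1 := by
        rw [map_neg]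
        linear_combination hrel
      have hu : ¬ (X : L[X]) ∣ -r.reverse := by
        rw [dvd_neg, X_dvd_iff, coeff_zero_reverse]
        exact leadingCoeff_ne_zero.2 hr0
      obtain ⟨F', i1, i2, h1, a', h2, h3, h4⟩ := @place L (RatFunc L) F _ _ A1 hfr _ _ hfd σ _ A2
        hst1 _ hst2 _ X irreducible_X (by rw [natDegree_X]; exact odd_one) a ha v0 h00 1
        (fun O b μ hb => ⟨MvPolynomial.aeval b f0, by
          have h4 := MvPolynomial.comp_aeval_apply (R := L) b (O.val.restrictScalars L) f0
          have h5 : (MvPolynomial.aeval b f0 : O).1 =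
            MvPolynomial.aeval (fun i => (b i : F)) f0 := h4
          have h6 : (fun i => (b i : F)) = fun i => μ * a i := funext hb
          rw [h5, h6, aeval_scale hf0]⟩) 1 odd_one (-r.reverse) hu
        (E * RatFunc.X ^ (k + 1)) (by
          show Algebra.norm (RatFunc L) v0 = infHom L (X ^ 1 * -r.reverse) * _
          have e1 : Algebra.norm (RatFunc L) v0 = (-RatFunc.X) ^ Module.finrank (RatFunc L) F *
              (R * E ^ 2) := by
            rw [hv0v1, map_mul, Algebra.norm_algebraMap, hrw]
          have e2 : infHom L (X ^ 1 * -r.reverse) = (RatFunc.X)⁻¹ * -infHom L r.reverse := by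
            rw [pow_one, map_mul, map_neg, inf_X]
          rw [e1, e2, hRr, hodd.neg_pow]
          have h7 : (RatFunc.X : RatFunc L) ^ Module.finrank (RatFunc L) F *
              RatFunc.X ^ r.natDegree = RatFunc.X ^ (2 * k + 1) := by
            rw [← pow_add, hk]
          have h8 : (RatFunc.X : RatFunc L) ^ (2 * k + 1) =
              (RatFunc.X)⁻¹ * (RatFunc.X ^ (k + 1)) ^ 2 := by
            field_simp
            ring
          linear_combination (-infHom L r.reverse * E ^ 2) * (h7.trans h8))
      refine ⟨F', i1, i2, h1, a', h2, ?_⟩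
      rintro g (hg | hg | hg)
      · obtain ⟨d, hd⟩ := hG g hg
        exact h3 g d hd (hGv g hg)
      · rw [hg]
        refine h4 f0 hf0 1 ?_
        rw [map_one, one_mul]
      · rw [hg]
        refine h4 f1 hf1 (-X) ?_
        show v1 = algebraMap (RatFunc L) F (infHom L (-X)) * v0
        rw [map_neg, inf_X, map_neg, map_inv₀]
        rw [hv0v1, map_neg, ← ht]
        field_simp
    · -- a finite place
      obtain ⟨q, m, u, hq, hqo, hmo, hu, hqmu⟩ := odd_prime _ r rfl hro
      let _ : Algebra L[X] F :=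
        ((algebraMap (RatFunc L) F).comp (algebraMap L[X] (RatFunc L))).toAlgebra
      have _ : IsScalarTower L[X] (RatFunc L) F := IsScalarTower.of_algebraMap_eq fun _ => rfl
      have _ : IsScalarTower L L[X] F := IsScalarTower.of_algebraMap_eq fun x => by
        exact congrArg (algebraMap (RatFunc L) F)
          (IsScalarTower.algebraMap_apply L L[X] (RatFunc L) x)
      obtain ⟨F', i1, i2, h1, a', h2, h3, h4⟩ := place (Q := RatFunc L) hq hqo ha (ψ := v1) h10 1
        (fun O b μ hb => ⟨MvPolynomial.aeval b f1, by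
          have h4 := MvPolynomial.comp_aeval_apply (R := L) b (O.val.restrictScalars L) f1
          have h5 : (MvPolynomial.aeval b f1 : O).1 =
            MvPolynomial.aeval (fun i => (b i : F)) f1 := h4
          have h6 : (fun i => (b i : F)) = fun i => μ * a i := funext hb
          rw [h5, h6, aeval_scale hf1]⟩) hmo hu
        (w := (algebraMap L[X] (RatFunc L) q0)⁻¹) (by rw [hrw, hqmu])
      refine ⟨F', i1, i2, h1, a', h2, ?_⟩
      rintro g (hg | hg | hg)
      · obtain ⟨d, hd⟩ := hG g hg
        exact h3 g d hd (hGv g hg)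
      · rw [hg]
        refine h4 f0 hf0 (-X) ?_
        show v0 = algebraMap (RatFunc L) F (algebraMap L[X] (RatFunc L) (-X)) * v1
        rw [map_neg, RatFunc.algebraMap_X, map_neg]
        linear_combination hrel
      · rw [hg]
        refine h4 f1 hf1 1 ?_
        rw [map_one, one_mul]

end Pool.Agent.SCT.H26
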