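import Pool.Agent.Helper26_SCT.Odd

/-!
# The norm form and integral multiples
-/

set_option autoImplicit false
set_option linter.unusedSectionVars false

namespace Pool.Agent.SCT.H26

open Polynomial Module

variable {L Q FF : Type} [Field L] [Field Q] [Algebra L[X] Q] [IsFractionRing L[X] Q]
  [Field FF] [Algebra Q FF] [FiniteDimensional Q FF] {σ : Type} [Fintype σ]

/-- the norm form -/
noncomputable def nform (Q : Type) {FF : Type} [Field Q] [Field FF] [Algebra Q FF]
    [FiniteDimensional Q FF] {σ : Type} [Fintype σ] (a : σ → FF) : MvPolynomial σ Q :=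
  Matrix.det (∑ i, (MvPolynomial.X i : MvPolynomial σ Q) •
    (Algebra.leftMulMatrix (finBasis Q FF) (a i)).map MvPolynomial.C)

theorem aeval_nform {B : Type} [CommRing B] [Algebra Q B] (a : σ → FF) (v : σ → B) :
    MvPolynomial.aeval v (nform Q a) = Matrix.det (∑ i, v i •
      (Algebra.leftMulMatrix (finBasis Q FF) (a i)).map (algebraMap Q B)) := by
  rw [nform, AlgHom.map_det]
  congr 1
  ext r s
  simp only [AlgHom.mapMatrix_apply, Matrix.map_apply, Matrix.sum_apply, Matrix.smul_apply,
    smul_eq_mul, map_sum, map_mul, MvPolynomial.aeval_X, MvPolynomial.algHom_C]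

theorem aeval_nform_Q (a : σ → FF) (v : σ → Q) :
    MvPolynomial.aeval v (nform Q a) =
      Matrix.det (Algebra.leftMulMatrix (finBasis Q FF) (∑ i, algebraMap Q FF (v i) * a i)) := by
  rw [aeval_nform]
  congr 1
  rw [map_sum]
  apply Finset.sum_congr rfl
  intro i _
  rw [← Algebra.smul_def, map_smul]
  rfl

theorem nform_ne_zero {a : σ → FF} (ha : a ≠ 0) : nform Q a ≠ 0 := by
  classical
  intro h
  obtain ⟨i, hi⟩ := Function.ne_iff.1 ha
  have h1 := aeval_nform_Q (Q := Q) a (Pi.single i 1)
  rw [h, map_zero] at h1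
  rw [Finset.sum_eq_single i] at h1
  · rw [Pi.single_eq_same, map_one, one_mul, ← Algebra.norm_eq_matrix_det] at h1
    exact hi (Algebra.norm_eq_zero_iff.1 h1.symm)
  · intro j _ hj
    rw [Pi.single_eq_of_ne hj, map_zero, zero_mul]
  · intro h; exact absurd (Finset.mem_univ i) h

/-- primitive multiples -/
theorem primitive {q : L[X]} (hq : Irreducible q) {N : MvPolynomial σ Q} (hN : N ≠ 0) :
    ∃ (c : Q) (P : MvPolynomial σ L[X]), c ≠ 0 ∧ ¬ MvPolynomial.C q ∣ P ∧
      MvPolynomial.map (algebraMap L[X] Q) P = MvPolynomial.C c * N := by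
  classical
  obtain ⟨d, hd⟩ := IsLocalization.exist_integer_multiples (nonZeroDivisors L[X]) N.support
    (fun m => N.coeff m)
  have hd0 : algebraMap L[X] Q d ≠ 0 := IsFractionRing.to_map_ne_zero_of_mem_nonZeroDivisors d.2
  have hex : ∀ m, ∃ p : L[X], algebraMap L[X] Q p = algebraMap L[X] Q d * N.coeff m := by
    intro m
    by_cases hm : m ∈ N.support
    · obtain ⟨p, hp⟩ := hd m hm
      exact ⟨p, by rw [hp, Algebra.smul_def]⟩
    · refine ⟨0, ?_⟩
      rw [MvPolynomial.notMem_support_iff.1 hm, map_zero, mul_zero]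
  choose p hp using hex
  set N1 : MvPolynomial σ L[X] := ∑ m ∈ N.support, MvPolynomial.monomial m (p m) with hN1
  have hcoeff : ∀ m, algebraMap L[X] Q (N1.coeff m) = algebraMap L[X] Q d * N.coeff m := by
    intro m
    rw [hN1, MvPolynomial.coeff_sum]
    simp only [MvPolynomial.coeff_monomial]
    rw [Finset.sum_ite_eq']
    split_ifs with hm
    · exact hp m
    · rw [MvPolynomial.notMem_support_iff.1 hm, map_zero, mul_zero]
  have hN10 : N1 ≠ 0 := by
    intro h
    apply hN
    ext m
    have h1 := hcoeff m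
    rw [h, MvPolynomial.coeff_zero, map_zero] at h1
    rw [MvPolynomial.coeff_zero]
    rcases mul_eq_zero.1 h1.symm with h2 | h2
    · exact absurd h2 hd0
    · exact h2
  have hnu : ¬ IsUnit (MvPolynomial.C q : MvPolynomial σ L[X]) := by
    intro h
    have h1 := h.map (MvPolynomial.constantCoeff (σ := σ) (R := L[X]))
    rw [MvPolynomial.constantCoeff_C] at h1
    exact hq.not_isUnit h1
  obtain ⟨P, h1, h2⟩ := (FiniteMultiplicity.of_not_isUnit hnu hN10).exists_eq_pow_mul_and_not_dvd
  obtain ⟨k, hk⟩ : ∃ k, k = multiplicity (MvPolynomial.C q) N1 := ⟨_, rfl⟩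
  rw [← hk] at h1
  have hqQ : algebraMap L[X] Q q ≠ 0 := by
    rw [Ne, IsFractionRing.to_map_eq_zero_iff]
    exact hq.ne_zero
  refine ⟨algebraMap L[X] Q d / algebraMap L[X] Q q ^ k, P, div_ne_zero hd0 (pow_ne_zero _ hqQ),
    h2, ?_⟩
  have h3 : MvPolynomial.map (algebraMap L[X] Q) N1 = MvPolynomial.C (algebraMap L[X] Q d) * N := by
    ext m
    rw [MvPolynomial.coeff_map, MvPolynomial.coeff_C_mul, hcoeff]
  rw [h1, map_mul, map_pow, MvPolynomial.map_C] at h3
  have h4 : (MvPolynomial.C (algebraMap L[X] Q q) : MvPolynomial σ Q) ^ k ≠ 0 :=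
    pow_ne_zero _ (by rw [Ne, MvPolynomial.C_eq_zero]; exact hqQ)
  apply mul_left_cancel₀ h4
  rw [h3, ← mul_assoc, ← map_pow, ← map_mul, mul_div_cancel₀ _ (pow_ne_zero _ hqQ)]

/-- a point with coordinates in `L` where a primitive polynomial is not divisible by `q` -/
theorem exists_point [Infinite L] {q : L[X]} (hq : Irreducible q) {P : MvPolynomial σ L[X]}
    (hP : ¬ MvPolynomial.C q ∣ P) :
    ∃ y : σ → L, ¬ q ∣ MvPolynomial.eval (fun i => Polynomial.C (y i)) P := by
  classical
  by_contra hcon
  push Not at hcon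
  have hprime : (Ideal.span {q} : Ideal L[X]).IsPrime :=
    (Ideal.span_singleton_prime hq.ne_zero).2 hq.prime
  let K := L[X] ⧸ (Ideal.span {q} : Ideal L[X])
  have hinj : Function.Injective (fun c : L => (Ideal.Quotient.mk (Ideal.span {q}) (C c) : K)) :=
    ((Ideal.Quotient.mk (Ideal.span {q} : Ideal L[X])).comp C).injective
  have hz : MvPolynomial.map (Ideal.Quotient.mk (Ideal.span {q} : Ideal L[X])) P = 0 := by
    apply MvPolynomial.funext_set
      (fun _ => Set.range (fun c : L => (Ideal.Quotient.mk (Ideal.span {q}) (C c) : K)))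
      (fun _ => Set.infinite_range_of_injective hinj)
    intro x hx
    choose y hy using fun i => hx i (Set.mem_univ i)
    have hx' : x = fun i => Ideal.Quotient.mk (Ideal.span {q} : Ideal L[X]) (C (y i)) := by
      funext i; exact (hy i).symm
    rw [map_zero, hx', MvPolynomial.eval_map]
    have h1 := hcon y
    have h2 : Ideal.Quotient.mk (Ideal.span {q} : Ideal L[X])
        (MvPolynomial.eval (fun i => Polynomial.C (y i)) P) = 0 := by
      rw [Ideal.Quotient.eq_zero_iff_mem, Ideal.mem_span_singleton]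
      exact h1
    rw [← h2, MvPolynomial.eval, MvPolynomial.coe_eval₂Hom, MvPolynomial.hom_eval₂,
      RingHom.comp_id]
  apply hP
  rw [MvPolynomial.C_dvd_iff_dvd_coeff]
  intro m
  have h1 := congrArg (MvPolynomial.coeff m) hz
  rw [MvPolynomial.coeff_map, MvPolynomial.coeff_zero, Ideal.Quotient.eq_zero_iff_mem,
    Ideal.mem_span_singleton] at h1
  exact h1

/-- integral multiples of the coordinates with a linear combination prime to `q` -/
theorem exists_integral [Infinite L] [Algebra L[X] FF] [IsScalarTower L[X] Q FF] {q : L[X]}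
    (hq : Irreducible q) {a : σ → FF} (ha : a ≠ 0) :
    ∃ (y : σ → L) (s : L[X]) (μ : FF), ¬ q ∣ s ∧ μ ≠ 0 ∧ (∀ i, IsIntegral L[X] (μ * a i)) ∧
      ∑ i, algebraMap L[X] FF (C (y i)) * (μ * a i) = algebraMap L[X] FF s := by
  classical
  obtain ⟨c, P, hc, hP, hPN⟩ := primitive hq (nform_ne_zero (Q := Q) ha)
  obtain ⟨y, hy⟩ := exists_point hq hP
  obtain ⟨s, hs⟩ : ∃ s, s = MvPolynomial.eval (fun i => Polynomial.C (y i)) P := ⟨_, rfl⟩
  rw [← hs] at hy
  have hs0 : s ≠ 0 := fun h => hy (h ▸ dvd_zero _)
  have hsQ : algebraMap L[X] Q s ≠ 0 := by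
    rw [Ne, IsFractionRing.to_map_eq_zero_iff]; exact hs0
  have hinjF : Function.Injective (algebraMap L[X] FF) := by
    rw [IsScalarTower.algebraMap_eq L[X] Q FF]
    exact (algebraMap Q FF).injective.comp (IsFractionRing.injective L[X] Q)
  have hsF : algebraMap L[X] FF s ≠ 0 := by
    intro h
    rw [← map_zero (algebraMap L[X] FF)] at h
    exact hs0 (hinjF h)
  set ℓ : FF := ∑ i, algebraMap L[X] FF (C (y i)) * a i with hℓ
  have hℓ' : ℓ = ∑ i, algebraMap Q FF (algebraMap L[X] Q (C (y i))) * a i := by
    rw [hℓ]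
    apply Finset.sum_congr rfl
    intro i _
    rw [← IsScalarTower.algebraMap_apply]
  have hdet : (Algebra.leftMulMatrix (finBasis Q FF) ℓ).det * c = algebraMap L[X] Q s := by
    rw [hℓ', ← aeval_nform_Q (Q := Q) a (fun i => algebraMap L[X] Q (C (y i))), hs]
    have h1 : MvPolynomial.aeval (fun i => algebraMap L[X] Q (C (y i)))
        (MvPolynomial.map (algebraMap L[X] Q) P) =
        algebraMap L[X] Q (MvPolynomial.eval (fun i => Polynomial.C (y i)) P) := by
      rw [MvPolynomial.aeval_map_algebraMap, MvPolynomial.eval, MvPolynomial.coe_eval₂Hom,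
        MvPolynomial.hom_eval₂, RingHom.comp_id, MvPolynomial.aeval_def]
    rw [← h1, hPN, map_mul, MvPolynomial.aeval_C, mul_comm]
    rfl
  have hℓ0 : ℓ ≠ 0 := by
    intro h
    rw [← Algebra.norm_eq_matrix_det, Algebra.norm_eq_zero_iff.2 h, zero_mul] at hdet
    exact hsQ hdet.symm
  refine ⟨y, s, algebraMap L[X] FF s / ℓ, hy, div_ne_zero hsF hℓ0, ?_, ?_⟩
  · intro i
    set B := Algebra.leftMulMatrix (finBasis Q FF) (a i / ℓ) with hB
    set Λ := Algebra.leftMulMatrix (finBasis Q FF) ℓ with hΛ
    have hA : Algebra.leftMulMatrix (finBasis Q FF) (a i) = B * Λ := by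
      rw [hB, hΛ, ← map_mul, div_mul_cancel₀ _ hℓ0]
    set v : σ → L[X][X] := fun j => C (C (y j)) * X - if j = i then 1 else 0 with hv
    set p : L[X][X] := MvPolynomial.aeval v P with hp
    have hmap : p.map (algebraMap L[X] Q) = C (algebraMap L[X] Q s) * B.charpoly := by
      have h1 : p.map (algebraMap L[X] Q) = MvPolynomial.aeval
          (fun j => (v j).map (algebraMap L[X] Q)) (MvPolynomial.map (algebraMap L[X] Q) P) := by
        rw [hp, MvPolynomial.aeval_def, ← Polynomial.coe_mapRingHom, MvPolynomial.hom_eval₂,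
          MvPolynomial.aeval_def, MvPolynomial.eval₂_map]
        congr 1
        refine RingHom.ext fun r => ?_
        show Polynomial.map (algebraMap L[X] Q) (C r) = C (algebraMap L[X] Q r)
        rw [Polynomial.map_C]
      rw [h1, hPN, map_mul, MvPolynomial.aeval_C, aeval_nform]
      have h2 : ∑ j, (v j).map (algebraMap L[X] Q) •
          (Algebra.leftMulMatrix (finBasis Q FF) (a j)).map (algebraMap Q Q[X]) =
          B.charmatrix * Λ.map C := by
        have h3 : ∀ j, (v j).map (algebraMap L[X] Q) =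
            C (algebraMap L[X] Q (C (y j))) * X - if j = i then 1 else 0 := by
          intro j
          rw [hv]
          simp only [Polynomial.map_sub, Polynomial.map_mul, Polynomial.map_C, Polynomial.map_X]
          split_ifs <;> simp
        simp only [h3, sub_smul, Finset.sum_sub_distrib, ite_smul, one_smul, zero_smul]
        rw [Finset.sum_ite_eq' Finset.univ i, if_pos (Finset.mem_univ i)]
        rw [Matrix.charmatrix, sub_mul]
        have h4 : ∑ j, (C (algebraMap L[X] Q (C (y j))) * X : Q[X]) •
            (Algebra.leftMulMatrix (finBasis Q FF) (a j)).map (algebraMap Q Q[X]) =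
            Matrix.scalar _ X * Λ.map C := by
          rw [hΛ, hℓ', map_sum]
          refine Matrix.ext fun r t => ?_
          simp only [Matrix.sum_apply, Matrix.smul_apply, Matrix.map_apply, smul_eq_mul,
            Matrix.scalar_apply, Matrix.diagonal_mul]
          rw [map_sum, Finset.mul_sum]
          apply Finset.sum_congr rfl
          intro j _
          have h5 : Algebra.leftMulMatrix (finBasis Q FF)
              (algebraMap Q FF (algebraMap L[X] Q (C (y j))) * a j) =
              algebraMap L[X] Q (C (y j)) • Algebra.leftMulMatrix (finBasis Q FF) (a j) := by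
            rw [← Algebra.smul_def, map_smul]
          rw [h5, Matrix.smul_apply, smul_eq_mul, map_mul]
          show C _ * X * C _ = _
          ring
        rw [h4]
        congr 1
        rw [hA]
        show (B * Λ).map C = B.map C * Λ.map C
        exact Matrix.map_mul
      rw [h2, Matrix.det_mul, ← Matrix.charpoly]
      have h6 : (Λ.map C).det = C Λ.det := by
        rw [← RingHom.mapMatrix_apply, ← RingHom.map_det]
      rw [h6, ← hdet]
      show C c * (B.charpoly * C Λ.det) = _
      rw [map_mul]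
      ring
    have hinjQ : Function.Injective (algebraMap L[X] Q) := IsFractionRing.injective L[X] Q
    have hlead : p.leadingCoeff = s := by
      apply hinjQ
      rw [← Polynomial.leadingCoeff_map_of_injective hinjQ, hmap, Polynomial.leadingCoeff_mul,
        Polynomial.leadingCoeff_C, B.charpoly_monic.leadingCoeff, mul_one]
    have hroot : aeval (a i / ℓ) p = 0 := by
      rw [← Polynomial.aeval_map_algebraMap Q, hmap, map_mul]
      have h7 : aeval (a i / ℓ) B.charpoly = 0 := by
        apply Algebra.leftMulMatrix_injective (finBasis Q FF)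
        rw [map_zero, ← Polynomial.aeval_algHom_apply, ← hB]
        exact Matrix.aeval_self_charpoly B
      rw [h7, mul_zero]
    have h8 := isIntegral_leadingCoeff_smul p (a i / ℓ) hroot
    rw [hlead, Algebra.smul_def] at h8
    have h9 : algebraMap L[X] FF s / ℓ * a i = algebraMap L[X] FF s * (a i / ℓ) := by ring
    rw [h9]
    exact h8
  · have h1 : ∀ i, algebraMap L[X] FF (C (y i)) * (algebraMap L[X] FF s / ℓ * a i) =
        algebraMap L[X] FF s / ℓ * (algebraMap L[X] FF (C (y i)) * a i) := fun i => by ring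
    rw [Finset.sum_congr rfl fun i _ => h1 i, ← Finset.mul_sum, ← hℓ, div_mul_cancel₀ _ hℓ0]

end Pool.Agent.SCT.H26
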