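import Mathlib

/-!
# Residue fields of odd degree
-/

set_option autoImplicit false

namespace Pool.Agent.SCT.H26

open Polynomial Module

/-- a module of odd dimension has a residue field of odd degree -/
theorem odd_max {L T : Type} [Field L] [CommRing T] [Algebra L T] (d : ℕ) :
    ∀ (W : Type) [AddCommGroup W] [Module T W] [Module L W] [IsScalarTower L T W]
      [Module.Finite L W], finrank L W = d → Odd d →
      ∃ n : Ideal T, n.IsMaximal ∧ Odd (finrank L (T ⧸ n)) ∧
        ∀ x : T, (∀ w : W, x • w = 0) → x ∈ n := by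
  induction d using Nat.strong_induction_on with
  | _ d ih =>
    intro W _ _ _ _ _ hd hodd
    have : IsArtinian T W := isArtinian_of_tower L inferInstance
    have : Nontrivial W := by
      apply Module.nontrivial_of_finrank_pos (R := L)
      rw [hd]
      exact hodd.pos
    obtain ⟨S, hS⟩ := IsAtomic.exists_atom (α := Submodule T W)
    have : IsSimpleModule T S := isSimpleModule_iff_isAtom.2 hS
    obtain ⟨n, hn, ⟨e⟩⟩ := isSimpleModule_iff_quot_maximal.1 (inferInstance : IsSimpleModule T S)
    have hfin : finrank L S = finrank L (T ⧸ n) :=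
      LinearEquiv.finrank_eq (e.restrictScalars L)
    have hsum : finrank L (W ⧸ S) + finrank L S = finrank L W := by
      have := Submodule.finrank_quotient_add_finrank (S.restrictScalars L)
      exact this
    have hpos : 0 < finrank L S := by
      have : Nontrivial S := IsSimpleModule.nontrivial T S
      have : Module.Finite L S := by
        have : Module.Finite L (S.restrictScalars L) := inferInstance
        exact this
      exact Module.finrank_pos
    rcases Nat.even_or_odd (finrank L S) with h1 | h1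
    · have h2 : Odd (finrank L (W ⧸ S)) := by
        rcases Nat.even_or_odd (finrank L (W ⧸ S)) with h3 | h3
        · exfalso
          rw [← hd, ← hsum] at hodd
          exact (Nat.not_odd_iff_even.2 (h3.add h1)) hodd
        · exact h3
      have : Module.Finite L (W ⧸ S) := by
        have : Module.Finite L (W ⧸ S.restrictScalars L) := inferInstance
        exact this
      obtain ⟨n', hn', hodd', hann⟩ := ih (finrank L (W ⧸ S)) (by omega) (W ⧸ S) rfl h2
      refine ⟨n', hn', hodd', fun x hx => hann x ?_⟩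
      intro w
      obtain ⟨w, rfl⟩ := Submodule.Quotient.mk_surjective S w
      rw [← Submodule.Quotient.mk_smul, hx w, Submodule.Quotient.mk_zero]
    · refine ⟨n, hn, hfin ▸ h1, fun x hx => ?_⟩
      have h2 : x • (1 : T ⧸ n) = 0 := by
        have h3 : x • (e.symm 1) = 0 := by
          apply Subtype.ext
          exact hx _
        have h4 := congrArg e h3
        rw [map_smul, LinearEquiv.apply_symm_apply, map_zero] at h4
        exact h4
      rw [← Ideal.Quotient.eq_zero_iff_mem]
      rw [← h2, Algebra.smul_def, mul_one]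
      rfl

/-- the dimension of the quotient by `f` and a polynomial `p` -/
theorem finrank_sup {L S ι : Type} [Field L] [CommRing S] [IsDomain S] [Algebra L[X] S]
    [Algebra L S] [IsScalarTower L L[X] S] [Fintype ι] [DecidableEq L] (b : Basis ι L[X] S) {f : S}
    (hf : f ≠ 0) (p : L[X]) (hp : p ≠ 0) :
    finrank L (S ⧸ (Ideal.span {f} ⊔ Ideal.span {algebraMap L[X] S p})) =
      ∑ i, (EuclideanDomain.gcd (Ideal.smithCoeffs b _ (Ideal.span_singleton_eq_bot.not.2 hf) i)
        p).natDegree := by
  classical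
  set c := Ideal.smithCoeffs b _ (Ideal.span_singleton_eq_bot.not.2 hf) with hc
  set g : ι → L[X] := fun i => EuclideanDomain.gcd (c i) p with hg
  have hg0 : ∀ i, g i ≠ 0 := fun i h => hp (EuclideanDomain.gcd_eq_zero_iff.1 h).2
  let E := Ideal.quotientEquivPiSpan (Ideal.span {f}) b (Ideal.span_singleton_eq_bot.not.2 hf)
  have hle : ∀ i, Ideal.span ({c i} : Set L[X]) ≤ Ideal.span ({g i} : Set L[X]) := by
    intro i
    rw [Ideal.span_singleton_le_span_singleton]
    exact EuclideanDomain.gcd_dvd_left _ _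
  let P : (∀ i, L[X] ⧸ Ideal.span ({c i} : Set L[X])) →ₗ[L[X]]
      (∀ i, L[X] ⧸ Ideal.span ({g i} : Set L[X])) :=
    LinearMap.pi fun i => (Submodule.mapQ (Ideal.span ({c i} : Set L[X]))
      (Ideal.span ({g i} : Set L[X])) LinearMap.id (by simpa using hle i)) ∘ₗ LinearMap.proj i
  let Q : S →ₗ[L[X]] (S ⧸ Ideal.span {f}) := (Ideal.Quotient.mkₐ L[X] (Ideal.span {f})).toLinearMap
  let Ψ : S →ₗ[L[X]] (∀ i, L[X] ⧸ Ideal.span ({g i} : Set L[X])) := P ∘ₗ E.toLinearMap ∘ₗ Q
  have hPmk : ∀ (v : ι → L[X]), P (fun i => Ideal.Quotient.mk _ (v i)) =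
      fun i => Ideal.Quotient.mk _ (v i) := fun v => rfl
  have hQs : Function.Surjective Q := Ideal.Quotient.mk_surjective
  have hPs : Function.Surjective P := by
    intro v
    choose w hw using fun i => Ideal.Quotient.mk_surjective (v i)
    refine ⟨fun i => Ideal.Quotient.mk _ (w i), ?_⟩
    rw [hPmk]
    funext i
    exact hw i
  have hΨ : Function.Surjective Ψ := hPs.comp (E.surjective.comp hQs)
  have hker : LinearMap.ker Ψ =
      (Ideal.span {f} ⊔ Ideal.span {algebraMap L[X] S p}).restrictScalars L[X] := by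
    apply le_antisymm
    · intro x hx
      rw [LinearMap.mem_ker] at hx
      choose v hv using fun i => Ideal.Quotient.mk_surjective (E (Q x) i)
      have h1 : P (fun i => Ideal.Quotient.mk _ (v i)) = 0 := by
        rw [← hx]
        show _ = P (E (Q x))
        congr 1
        funext i
        exact hv i
      rw [hPmk] at h1
      have h2 : ∀ i, ∃ w, Ideal.Quotient.mk (Ideal.span ({c i} : Set L[X])) (v i) =
          p • Ideal.Quotient.mk _ w := by
        intro i
        have h3 := congrFun h1 i
        have h4 : Ideal.Quotient.mk (Ideal.span ({g i} : Set L[X])) (v i) = 0 := h3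
        rw [Ideal.Quotient.eq_zero_iff_mem, Ideal.mem_span_singleton] at h4
        obtain ⟨u, hu⟩ := h4
        refine ⟨EuclideanDomain.gcdB (c i) p * u, ?_⟩
        have h5 : p • Ideal.Quotient.mk (Ideal.span ({c i} : Set L[X]))
            (EuclideanDomain.gcdB (c i) p * u) = Ideal.Quotient.mk _
            (p * (EuclideanDomain.gcdB (c i) p * u)) := rfl
        rw [h5, Ideal.Quotient.mk_eq_mk_iff_sub_mem, Ideal.mem_span_singleton]
        have h6 : g i = c i * EuclideanDomain.gcdA (c i) p + p * EuclideanDomain.gcdB (c i) p :=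
          EuclideanDomain.gcd_eq_gcd_ab _ _
        refine ⟨EuclideanDomain.gcdA (c i) p * u, ?_⟩
        rw [hu, h6]
        ring
      choose w hw using h2
      have h7 : E (Q x) = p • (fun i => Ideal.Quotient.mk (Ideal.span ({c i} : Set L[X])) (w i)) := by
        funext i
        rw [← hv i, hw i]
        rfl
      obtain ⟨z, hz⟩ := (E.surjective.comp hQs)
        (fun i => Ideal.Quotient.mk (Ideal.span ({c i} : Set L[X])) (w i))
      have h8 : E (Q x) = E (Q (p • z)) := by
        rw [h7, map_smul, map_smul]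
        congr 1
        exact hz.symm
      have h9 : Q x = Q (p • z) := E.injective h8
      have h10 : x - p • z ∈ Ideal.span {f} := by
        rw [← Ideal.Quotient.mk_eq_mk_iff_sub_mem]
        exact h9
      show x ∈ Ideal.span {f} ⊔ Ideal.span {algebraMap L[X] S p}
      have h11 : x = (x - p • z) + algebraMap L[X] S p * z := by
        rw [Algebra.smul_def]; ring
      rw [h11]
      exact Submodule.add_mem_sup h10 (Ideal.mul_mem_right _ _ (Ideal.mem_span_singleton_self _))
    · intro x hx
      have hx' : x ∈ Ideal.span {f} ⊔ Ideal.span {algebraMap L[X] S p} := hx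
      obtain ⟨y, hy, z, hz, rfl⟩ := Submodule.mem_sup.1 hx'
      rw [LinearMap.mem_ker, map_add]
      have h1 : Ψ y = 0 := by
        show P (E (Q y)) = 0
        have : Q y = 0 := Ideal.Quotient.eq_zero_iff_mem.2 hy
        rw [this, map_zero, map_zero]
      have h2 : Ψ z = 0 := by
        obtain ⟨u, rfl⟩ := Ideal.mem_span_singleton'.1 hz
        have h3 : u * algebraMap L[X] S p = p • u := by
          rw [Algebra.smul_def, mul_comm]
        rw [h3, map_smul]
        choose v hv using fun i => Ideal.Quotient.mk_surjective (Ψ u i)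
        funext i
        show p • Ψ u i = 0
        rw [← hv i]
        show Ideal.Quotient.mk _ (p * v i) = 0
        rw [Ideal.Quotient.eq_zero_iff_mem, Ideal.mem_span_singleton]
        exact (EuclideanDomain.gcd_dvd_right _ _).mul_right _
      rw [h1, h2, add_zero]
  have e1 : (S ⧸ LinearMap.ker Ψ) ≃ₗ[L[X]] (∀ i, L[X] ⧸ Ideal.span ({g i} : Set L[X])) :=
    LinearMap.quotKerEquivOfSurjective Ψ hΨ
  have e2 : (S ⧸ (Ideal.span {f} ⊔ Ideal.span {algebraMap L[X] S p})) ≃ₗ[L]
      (∀ i, L[X] ⧸ Ideal.span ({g i} : Set L[X])) := by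
    have e3 := (Submodule.quotEquivOfEq _ _ hker).symm.trans e1
    exact e3.restrictScalars L
  rw [LinearEquiv.finrank_eq e2]
  have hfd : ∀ i, Module.Finite L (L[X] ⧸ Ideal.span ({g i} : Set L[X])) := fun i =>
    PowerBasis.finite (AdjoinRoot.powerBasis (hg0 i))
  rw [Module.finrank_pi_fintype]
  apply Finset.sum_congr rfl
  intro i _
  exact finrank_quotient_span_eq_natDegree

/-- the power of a prime in a nonzero element -/
theorem split_prime {L : Type} [Field L] {q : L[X]} (hq : Irreducible q) {n : L[X]} (hn : n ≠ 0) :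
    ∃ (m : ℕ) (u : L[X]), n = q ^ m * u ∧ ¬ q ∣ u := by
  have hfin : FiniteMultiplicity q n := FiniteMultiplicity.of_not_isUnit hq.not_isUnit hn
  obtain ⟨u, h1, h2⟩ := hfin.exists_eq_pow_mul_and_not_dvd
  exact ⟨_, u, h1, h2⟩

theorem pow_dvd_le {L : Type} [Field L] {q : L[X]} (hq : Irreducible q) {m j : ℕ} {u : L[X]}
    (hu : ¬ q ∣ u) (h : q ^ m ∣ q ^ j * u) : m ≤ j := by
  by_contra hlt
  push Not at hlt
  obtain ⟨k, hk⟩ := Nat.exists_eq_add_of_lt hlt
  apply hu
  have h1 : q ^ j * q ∣ q ^ j * u := by
    refine Dvd.dvd.trans ?_ h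
    rw [hk]
    exact ⟨q ^ k, by ring⟩
  exact (mul_dvd_mul_iff_left (pow_ne_zero _ hq.ne_zero)).1 h1

theorem pow_unique {L : Type} [Field L] {q : L[X]} (hq : Irreducible q) {m j : ℕ} {u v : L[X]}
    (hu : ¬ q ∣ u) (hv : ¬ q ∣ v) (h : q ^ m * u = q ^ j * v) : m = j :=
  le_antisymm (pow_dvd_le hq hv (h ▸ dvd_mul_right _ _))
    (pow_dvd_le hq hu (h.symm ▸ dvd_mul_right _ _))

/-- the dimension is odd -/
theorem odd_dim {L S ι : Type} [Field L] [CommRing S] [IsDomain S] [Algebra L[X] S]
    [Algebra L S] [IsScalarTower L L[X] S] [Fintype ι] (b : Basis ι L[X] S) {f : S}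
    (hf : f ≠ 0) {q : L[X]} (hq : Irreducible q) (hdeg : Odd q.natDegree) {j : ℕ} (hj : Odd j)
    {u : L[X]} (hu : ¬ q ∣ u) (hn : Algebra.norm L[X] f = q ^ j * u) :
    Odd (finrank L (S ⧸ (Ideal.span {f} ⊔ Ideal.span {algebraMap L[X] S (q ^ j)}))) := by
  classical
  rw [finrank_sup b hf (q ^ j) (pow_ne_zero _ hq.ne_zero)]
  set c := Ideal.smithCoeffs b _ (Ideal.span_singleton_eq_bot.not.2 hf) with hc
  have hc0 : ∀ i, c i ≠ 0 := Ideal.smithCoeffs_ne_zero b _ _
  choose m v hmv hv using fun i => split_prime hq (hc0 i)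
  have hass : Associated (Algebra.norm L[X] f) (∏ i, c i) := associated_norm_prod_smith b hf
  have hprod : ∏ i, c i = q ^ (∑ i, m i) * ∏ i, v i := by
    rw [← Finset.prod_pow_eq_pow_sum, ← Finset.prod_mul_distrib]
    exact Finset.prod_congr rfl fun i _ => hmv i
  have hvp : ¬ q ∣ ∏ i, v i := by
    intro h
    obtain ⟨i, _, hi⟩ := (hq.prime.dvd_finsetProd_iff _).1 h
    exact hv i hi
  obtain ⟨w, hw⟩ := hass
  have hsum : ∑ i, m i = j := by
    refine pow_unique hq hvp (v := u * (w : L[X])) ?_ ?_
    · intro h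
      rcases hq.prime.dvd_or_dvd h with h1 | h1
      · exact hu h1
      · exact hq.not_isUnit (isUnit_of_dvd_unit h1 w.isUnit)
    · rw [← hprod, ← hw, hn, mul_assoc]
  have hmle : ∀ i, m i ≤ j := by
    intro i
    rw [← hsum]
    exact Finset.single_le_sum (fun _ _ => Nat.zero_le _) (Finset.mem_univ i)
  have hdegi : ∀ i, (EuclideanDomain.gcd (c i) (q ^ j)).natDegree = m i * q.natDegree := by
    intro i
    have h1 : Associated (EuclideanDomain.gcd (c i) (q ^ j)) (q ^ m i) := by
      apply associated_of_dvd_dvd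
      · obtain ⟨k, hk, hk'⟩ := (dvd_prime_pow hq.prime _).1
          (EuclideanDomain.gcd_dvd_right (c i) (q ^ j))
        refine hk'.dvd.trans (pow_dvd_pow _ ?_)
        have h2 : q ^ k ∣ c i := hk'.symm.dvd.trans (EuclideanDomain.gcd_dvd_left _ _)
        rw [hmv i] at h2
        exact pow_dvd_le hq (hv i) h2
      · apply EuclideanDomain.dvd_gcd
        · rw [hmv i]; exact dvd_mul_right _ _
        · exact pow_dvd_pow _ (hmle i)
    rw [natDegree_eq_of_degree_eq (degree_eq_degree_of_associated h1), natDegree_pow]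
  rw [Finset.sum_congr rfl fun i _ => hdegi i, ← Finset.sum_mul, hsum]
  exact hj.mul hdeg

end Pool.Agent.SCT.H26
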