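import Pool.Agent.Helper26_SCT.Form

/-!
# Points over odd degree extensions of the residue field of a place
-/

set_option autoImplicit false
set_option linter.unusedSectionVars false

namespace Pool.Agent.SCT.H26

open Polynomial Module

variable {L Q FF : Type} [Field L] [Field Q] [Algebra L[X] Q] [IsFractionRing L[X] Q]
  [Field FF] [Algebra Q FF] [FiniteDimensional Q FF] {σ : Type} [Fintype σ]
  [Algebra L[X] FF] [IsScalarTower L[X] Q FF] [Algebra L FF] [IsScalarTower L L[X] FF]

/-- norms of elements of a lattice which is a ring -/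
theorem norm_lattice {ι : Type} [Fintype ι] (O : Subalgebra L[X] FF)
    (hO : Submodule.span Q (O : Set FF) = ⊤) (β : Basis ι L[X] O) (φ : O) :
    Algebra.norm Q (φ : FF) = algebraMap L[X] Q (Algebra.norm L[X] φ) := by
  classical
  have hli : LinearIndependent Q (fun i => (β i : FF)) := by
    rw [← LinearIndependent.iff_fractionRing (R := L[X])]
    have h1 : LinearIndependent L[X] (O.val.toLinearMap ∘ β) :=
      β.linearIndependent.map' _ (LinearMap.ker_eq_bot.2 Subtype.val_injective)
    exact h1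
  have hsp : ⊤ ≤ Submodule.span Q (Set.range fun i => (β i : FF)) := by
    rw [← hO, Submodule.span_le]
    intro z hz
    have h1 := β.sum_repr ⟨z, hz⟩
    have h2 : z = ∑ i, (β.repr ⟨z, hz⟩ i) • (β i : FF) := by
      have h3 : ((∑ i, (β.repr ⟨z, hz⟩ i) • β i : O) : FF) = z := congrArg Subtype.val h1
      rw [AddSubmonoidClass.coe_finsetSum] at h3
      exact h3.symm
    rw [h2]
    apply Submodule.sum_mem
    intro i _
    rw [← algebraMap_smul Q (β.repr ⟨z, hz⟩ i) (β i : FF)]
    exact Submodule.smul_mem _ _ (Submodule.subset_span ⟨i, rfl⟩)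
  let β' : Basis ι Q FF := Basis.mk hli hsp
  have hβ' : ∀ i, β' i = (β i : FF) := fun i => Basis.mk_apply hli hsp i
  rw [Algebra.norm_eq_matrix_det β', Algebra.norm_eq_matrix_det β, RingHom.map_det]
  congr 1
  refine Matrix.ext fun i j => ?_
  rw [RingHom.mapMatrix_apply, Matrix.map_apply, Algebra.leftMulMatrix_eq_repr_mul,
    Algebra.leftMulMatrix_eq_repr_mul, hβ']
  have h1 : (φ : FF) * (β j : FF) = ∑ k, algebraMap L[X] Q (β.repr (φ * β j) k) • β' k := by
    have h2 := β.sum_repr (φ * β j)
    have h3 : ((∑ i, (β.repr (φ * β j) i) • β i : O) : FF) = (φ : FF) * (β j : FF) :=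
      congrArg Subtype.val h2
    rw [← h3, AddSubmonoidClass.coe_finsetSum]
    apply Finset.sum_congr rfl
    intro k _
    rw [hβ', algebraMap_smul]
    rfl
  rw [h1, map_sum, Finset.sum_apply']
  simp only [map_smul, Basis.repr_self, Finsupp.smul_apply, smul_eq_mul]
  rw [Finset.sum_eq_single i]
  · rw [Finsupp.single_eq_same, mul_one]
  · intro k _ hk
    rw [Finsupp.single_eq_of_ne (Ne.symm hk), mul_zero]
  · intro h; exact absurd (Finset.mem_univ i) h

/-- an integral model of the point -/
theorem exists_model [Infinite L] {q : L[X]} (hq : Irreducible q) {a : σ → FF} (ha : a ≠ 0) :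
    ∃ (O : Subalgebra L[X] FF) (r : ℕ) (_ : Basis (Fin r) L[X] O) (b : σ → O) (y : σ → L)
      (s : L[X]) (μ : FF), μ ≠ 0 ∧ ¬ q ∣ s ∧ (∀ i, (b i : FF) = μ * a i) ∧
      ∑ i, algebraMap L[X] O (C (y i)) * b i = algebraMap L[X] O s ∧
      ∀ φ : O, Algebra.norm Q (φ : FF) = algebraMap L[X] Q (Algebra.norm L[X] φ) := by
  classical
  obtain ⟨y, s, μ, hs, hμ, hint, hsum⟩ := exists_integral (Q := Q) hq ha
  set θ := finBasis Q FF with hθ
  have halg : ∀ i, ∃ d : L[X], d ≠ 0 ∧ IsIntegral L[X] (d • θ i) := by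
    intro i
    have h1 : IsAlgebraic Q (θ i) := Algebra.IsAlgebraic.isAlgebraic _
    have h2 : IsAlgebraic L[X] (θ i) := (IsFractionRing.isAlgebraic_iff L[X] Q FF).2 h1
    exact h2.exists_integral_multiple
  choose d hd hdint using halg
  set S : Set FF := Set.range (fun i => μ * a i) ∪ Set.range (fun i => d i • θ i) with hS
  have hSfin : S.Finite := (Set.finite_range _).union (Set.finite_range _)
  have hSint : ∀ x ∈ S, IsIntegral L[X] x := by
    rintro x (⟨i, rfl⟩ | ⟨i, rfl⟩)
    · exact hint i
    · exact hdint i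
  set O : Subalgebra L[X] FF := Algebra.adjoin L[X] S with hO
  have hfg : O.toSubmodule.FG := fg_adjoin_of_finite hSfin hSint
  have hfin : Module.Finite L[X] O := Module.Finite.iff_fg.2 hfg
  have hinjF : Function.Injective (algebraMap L[X] FF) := by
    rw [IsScalarTower.algebraMap_eq L[X] Q FF]
    exact (algebraMap Q FF).injective.comp (IsFractionRing.injective L[X] Q)
  have htf : Module.IsTorsionFree L[X] O := by
    have hF : Module.IsTorsionFree L[X] FF := by
      have : FaithfulSMul L[X] FF := (faithfulSMul_iff_algebraMap_injective _ _).2 hinjF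
      infer_instance
    infer_instance
  have hspan : Submodule.span Q (O : Set FF) = ⊤ := by
    rw [eq_top_iff, ← θ.span_eq, Submodule.span_le]
    rintro _ ⟨i, rfl⟩
    have h1 : algebraMap L[X] Q (d i) ≠ 0 := by
      rw [Ne, IsFractionRing.to_map_eq_zero_iff]; exact hd i
    have h2 : θ i = (algebraMap L[X] Q (d i))⁻¹ • (d i • θ i) := by
      rw [← algebraMap_smul Q (d i) (θ i), smul_smul, inv_mul_cancel₀ h1, one_smul]
    rw [h2]
    exact Submodule.smul_mem _ _ (Submodule.subset_span
      (Algebra.subset_adjoin (Or.inr ⟨i, rfl⟩)))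
  let β := finBasis L[X] O
  refine ⟨O, _, β, fun i => ⟨μ * a i, Algebra.subset_adjoin (Or.inl ⟨i, rfl⟩)⟩, y, s, μ, hμ, hs,
    fun i => rfl, ?_, norm_lattice O hspan β⟩
  apply Subtype.ext
  rw [AddSubmonoidClass.coe_finsetSum]
  exact hsum

end Pool.Agent.SCT.H26
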